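import Pool.Agent.Helper51.FO.Calc

/-! Offer FO-D1 (MP_12f184_an): functions that are analytic functions of the output jet. -/

namespace FlatOrder

open scoped Topology
open Filter

variable {n m : ℕ} {f : (Fin n → ℝ) → (Fin m → ℝ) → (Fin n → ℝ)} {h : Fin m → Jet n m → ℝ}

/-- Restriction of output jets. -/
noncomputable def resO (m : ℕ) {s s' : ℕ} (hs : s ≤ s') :
    (Fin (s' + 1) → Fin m → ℝ) →L[ℝ] (Fin (s + 1) → Fin m → ℝ) where
  toFun q := fun j => q (Fin.castLE (by omega) j)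
  map_add' _ _ := rfl
  map_smul' _ _ := rfl
  cont := by fun_prop

theorem resO_outJet {s s' : ℕ} (hs : s ≤ s') (p : Jet n m) :
    resO m hs (outJet f h s' p) = outJet f h s p := rfl

theorem Expr.mono {s s' : ℕ} (hs : s ≤ s') {g : Jet n m → ℝ} {p : Jet n m}
    (hg : Expr f h s g p) : Expr f h s' g p := by
  obtain ⟨Φ, hΦ, he⟩ := hg
  refine ⟨fun q => Φ (resO m hs q), ?_, he⟩
  exact AnalyticAt.fun_comp (g := Φ) (f := fun q => resO m hs q) hΦ ((resO m hs).analyticAt _)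

theorem Expr.congr {s : ℕ} {g g' : Jet n m → ℝ} {p : Jet n m} (hg : Expr f h s g p)
    (he : g' =ᶠ[𝓝 p] g) : Expr f h s g' p := by
  obtain ⟨Φ, hΦ, he'⟩ := hg
  exact ⟨Φ, hΦ, he.trans he'⟩

theorem expr_const (s : ℕ) (a : ℝ) (p : Jet n m) : Expr f h s (fun _ => a) p :=
  ⟨fun _ => a, analyticAt_const, Eventually.of_forall fun _ => rfl⟩

theorem expr_out (i : Fin m) (p : Jet n m) : Expr f h 0 (h i) p := by
  refine ⟨fun q => q 0 i, ?_, Eventually.of_forall fun _ => rfl⟩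
  have h1 : AnalyticAt ℝ (fun q : Fin (0 + 1) → Fin m → ℝ => q) (outJet f h 0 p) := analyticAt_id
  exact analyticAt_pi_iff.1 (analyticAt_pi_iff.1 h1 0) i

theorem Expr.comp {ι : Type*} [Fintype ι] {s : ℕ} {g : ι → Jet n m → ℝ} {p : Jet n m}
    (hg : ∀ i, Expr f h s (g i) p) {Φ : (ι → ℝ) → ℝ} (hΦ : AnalyticAt ℝ Φ (fun i => g i p)) :
    Expr f h s (fun p' => Φ (fun i => g i p')) p := by
  choose φ hφ he using hg
  refine ⟨fun q => Φ (fun i => φ i q), ?_, ?_⟩
  · have h1 : AnalyticAt ℝ (fun q : Fin (s + 1) → Fin m → ℝ => fun i => φ i q) (outJet f h s p) :=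
      AnalyticAt.pi fun i => hφ i
    refine AnalyticAt.fun_comp ?_ h1
    have : (fun i => φ i (outJet f h s p)) = fun i => g i p := by
      funext i; exact ((he i).self_of_nhds).symm
    rw [this]; exact hΦ
  · have : ∀ᶠ p' in 𝓝 p, ∀ i, g i p' = φ i (outJet f h s p') := eventually_all.2 he
    filter_upwards [this] with p' hp'
    congr 1
    funext i; exact hp' i

/-- composition with an analytic function of one variable -/
theorem Expr.comp₁ {s : ℕ} {g : Jet n m → ℝ} {p : Jet n m} (hg : Expr f h s g p) {φ : ℝ → ℝ}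
    (hφ : AnalyticAt ℝ φ (g p)) : Expr f h s (fun q => φ (g q)) p := by
  obtain ⟨Φ, hΦ, he⟩ := hg
  refine ⟨fun q => φ (Φ q), ?_, ?_⟩
  · refine AnalyticAt.fun_comp (g := φ) (f := Φ) ?_ hΦ
    have h1 : Φ (outJet f h s p) = g p := he.self_of_nhds.symm
    rw [h1]; exact hφ
  · filter_upwards [he] with q hq
    rw [hq]

theorem Expr.add {s : ℕ} {g g' : Jet n m → ℝ} {p : Jet n m} (hg : Expr f h s g p)
    (hg' : Expr f h s g' p) : Expr f h s (fun q => g q + g' q) p := by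
  obtain ⟨Φ, hΦ, he⟩ := hg
  obtain ⟨Φ', hΦ', he'⟩ := hg'
  exact ⟨fun q => Φ q + Φ' q, hΦ.fun_add hΦ', he.add he'⟩

theorem Expr.mul {s : ℕ} {g g' : Jet n m → ℝ} {p : Jet n m} (hg : Expr f h s g p)
    (hg' : Expr f h s g' p) : Expr f h s (fun q => g q * g' q) p := by
  obtain ⟨Φ, hΦ, he⟩ := hg
  obtain ⟨Φ', hΦ', he'⟩ := hg'
  exact ⟨fun q => Φ q * Φ' q, hΦ.fun_mul hΦ', he.mul he'⟩

theorem Expr.neg {s : ℕ} {g : Jet n m → ℝ} {p : Jet n m} (hg : Expr f h s g p) :
    Expr f h s (fun q => - g q) p := by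
  obtain ⟨Φ, hΦ, he⟩ := hg
  exact ⟨fun q => - Φ q, hΦ.fun_neg, he.neg⟩

theorem Expr.sub {s : ℕ} {g g' : Jet n m → ℝ} {p : Jet n m} (hg : Expr f h s g p)
    (hg' : Expr f h s g' p) : Expr f h s (fun q => g q - g' q) p := by
  obtain ⟨Φ, hΦ, he⟩ := hg
  obtain ⟨Φ', hΦ', he'⟩ := hg'
  exact ⟨fun q => Φ q - Φ' q, hΦ.fun_sub hΦ', he.sub he'⟩

theorem Expr.inv {s : ℕ} {g : Jet n m → ℝ} {p : Jet n m} (hg : Expr f h s g p) (h0 : g p ≠ 0) :
    Expr f h s (fun q => (g q)⁻¹) p :=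
  hg.comp₁ (analyticAt_inv h0)

theorem Expr.div {s : ℕ} {g g' : Jet n m → ℝ} {p : Jet n m} (hg : Expr f h s g p)
    (hg' : Expr f h s g' p) (h0 : g' p ≠ 0) : Expr f h s (fun q => g q / g' q) p := by
  have := hg.mul (hg'.inv h0)
  simpa only [div_eq_mul_inv] using this

theorem analyticAt_real_log {x : ℝ} (hx : x ≠ 0) : AnalyticAt ℝ Real.log x := by
  rcases lt_or_gt_of_ne hx with h1 | h1
  · have h2 : Real.log = fun y => Real.log (-y) := by
      funext y; exact (Real.log_neg_eq_log y).symm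
    rw [h2]
    exact AnalyticAt.fun_comp (g := Real.log) (f := fun y : ℝ => -y) (analyticAt_log (by linarith))
      analyticAt_id.fun_neg
  · exact analyticAt_log h1

theorem Expr.log {s : ℕ} {g : Jet n m → ℝ} {p : Jet n m} (hg : Expr f h s g p) (h0 : g p ≠ 0) :
    Expr f h s (fun q => Real.log (g q)) p :=
  hg.comp₁ (analyticAt_real_log h0)

theorem analyticAt_real_sqrt {x : ℝ} (hx : 0 < x) : AnalyticAt ℝ Real.sqrt x := by
  have h1 : AnalyticAt ℝ (fun y : ℝ => Real.exp (Real.log y / 2)) x :=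
    AnalyticAt.rexp' ((analyticAt_log hx).fun_div analyticAt_const (by norm_num))
  refine h1.congr ?_
  filter_upwards [lt_mem_nhds hx] with y hy
  rw [Real.sqrt_eq_rpow, Real.rpow_def_of_pos hy]
  congr 1
  ring

theorem Expr.sqrt {s : ℕ} {g : Jet n m → ℝ} {p : Jet n m} (hg : Expr f h s g p) (h0 : 0 < g p) :
    Expr f h s (fun q => Real.sqrt (g q)) p :=
  hg.comp₁ (analyticAt_real_sqrt h0)

theorem good_iterate
    (hf : AnalyticOnNhd ℝ (fun z : (Fin n → ℝ) × (Fin m → ℝ) => f z.1 z.2) Set.univ)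
    {N : ℕ} {g : Jet n m → ℝ} {p : Jet n m} (hg : Good N g p) (j : ℕ) :
    Good (N + j) ((totalDeriv f)^[j] g) p := by
  induction j with
  | zero => exact hg
  | succ j ih =>
    rw [Function.iterate_succ_apply']
    exact ih.totalDeriv_good hf

theorem continuousAt_outJet
    (hf : AnalyticOnNhd ℝ (fun z : (Fin n → ℝ) × (Fin m → ℝ) => f z.1 z.2) Set.univ)
    {N : ℕ} {p : Jet n m} (hh : ∀ i, Good N (h i) p) (s : ℕ) : ContinuousAt (outJet f h s) p := by
  refine continuousAt_pi.2 fun j => continuousAt_pi.2 fun i => ?_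
  exact (good_iterate hf (hh i) j).continuousAt

theorem Expr.totalDeriv
    (hf : AnalyticOnNhd ℝ (fun z : (Fin n → ℝ) × (Fin m → ℝ) => f z.1 z.2) Set.univ)
    {N s : ℕ} {g : Jet n m → ℝ} {p : Jet n m} (hh : ∀ i, Good N (h i) p)
    (hg : Expr f h s g p) : Expr f h (s + 1) (FlatOrder.totalDeriv f g) p := by
  obtain ⟨Φ, hΦ, he⟩ := hg
  let S : (Fin (s + 1 + 1) → Fin m → ℝ) →L[ℝ] (Fin (s + 1) → Fin m → ℝ) :=
    { toFun := fun q j => q j.succ
      map_add' := fun _ _ => rfl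
      map_smul' := fun _ _ => rfl
      cont := by fun_prop }
  refine ⟨fun q => fderiv ℝ Φ (resO m (Nat.le_succ s) q) (S q), ?_, ?_⟩
  · refine analyticAt_clm_apply ?_ (S.analyticAt _)
    exact AnalyticAt.fun_comp (g := fun q => fderiv ℝ Φ q) (f := fun q => resO m (Nat.le_succ s) q)
      hΦ.fderiv ((resO m (Nat.le_succ s)).analyticAt _)
  · have h1 : ∀ᶠ q in 𝓝 p, AnalyticAt ℝ Φ (outJet f h s q) :=
      (continuousAt_outJet hf hh s).eventually hΦ.eventually_analyticAt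
    have h2 : ∀ᶠ q in 𝓝 p, ∀ i, Good N (h i) q := eventually_all.2 fun i => (hh i).eventually
    filter_upwards [h1, h2, he.eventually_nhds] with q h3 h4 h5
    have h6 : HasDerivAt (fun t : ℝ => outJet f h s (q + t • prolong f q))
        (S (outJet f h (s + 1) q)) 0 := by
      refine hasDerivAt_pi.2 fun j => hasDerivAt_pi.2 fun i => ?_
      have h7 := ((good_iterate hf (h4 i) j).lineDifferentiableAt (prolong f q)).hasLineDerivAt
      have h8 : S (outJet f h (s + 1) q) j i =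
          lineDeriv ℝ ((FlatOrder.totalDeriv f)^[(j : ℕ)] (h i)) q (prolong f q) := by
        change ((FlatOrder.totalDeriv f)^[((j.succ : Fin (s + 1 + 1)) : ℕ)] (h i)) q = _
        rw [Fin.val_succ, Function.iterate_succ_apply']
        rfl
      rw [h8]
      exact h7
    have h7 : HasFDerivAt Φ (fderiv ℝ Φ (outJet f h s q)) (outJet f h s (q + (0 : ℝ) • prolong f q)) := by
      simp only [zero_smul, add_zero]
      exact h3.differentiableAt.hasFDerivAt
    have h8 : lineDeriv ℝ (fun p' => Φ (outJet f h s p')) q (prolong f q) =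
      fderiv ℝ Φ (outJet f h s q) (S (outJet f h (s + 1) q)) :=
      (h7.comp_hasDerivAt (0 : ℝ) h6).deriv
    change lineDeriv ℝ g q (prolong f q) = _
    rw [lineDeriv_congr h5, h8]
    rfl

theorem Expr.quadratic {s : ℕ} {a b l : Jet n m → ℝ} {p : Jet n m} (ha : Expr f h s a p)
    (hb : Expr f h s b p) (hl : ContinuousAt l p)
    (he : ∀ᶠ q in 𝓝 p, l q ^ 2 - a q * l q - b q = 0) (h0 : 2 * l p - a p ≠ 0)
    (hac : ContinuousAt a p) : Expr f h s l p := by
  have hc : ContinuousAt (fun q => 2 * l q - a q) p := (continuousAt_const.mul hl).sub hac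
  have hd : Expr f h s (fun q => a q * a q + 4 * b q) p :=
    (ha.mul ha).add ((expr_const s 4 p).mul hb)
  have hp := he.self_of_nhds
  have hpos : 0 < a p * a p + 4 * b p := by
    have : a p * a p + 4 * b p = (2 * l p - a p) ^ 2 := by linear_combination (-4) * hp
    rw [this]; positivity
  have hs := hd.sqrt hpos
  rcases lt_or_gt_of_ne h0 with h1 | h1
  · have h2 : ∀ᶠ q in 𝓝 p, 2 * l q - a q < 0 := hc.eventually (gt_mem_nhds h1)
    refine ((ha.sub hs).mul (expr_const s (1 / 2) p)).congr ?_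
    filter_upwards [he, h2] with q h3 h4
    have h5 : a q * a q + 4 * b q = (-(2 * l q - a q)) ^ 2 := by linear_combination (-4) * h3
    rw [h5, Real.sqrt_sq (by linarith)]
    ring
  · have h2 : ∀ᶠ q in 𝓝 p, 0 < 2 * l q - a q := hc.eventually (lt_mem_nhds h1)
    refine ((ha.add hs).mul (expr_const s (1 / 2) p)).congr ?_
    filter_upwards [he, h2] with q h3 h4
    have h5 : a q * a q + 4 * b q = (2 * l q - a q) ^ 2 := by linear_combination (-4) * h3
    rw [h5, Real.sqrt_sq (by linarith)]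
    ring

theorem isFlatOutput_of_expr
    (hf : AnalyticOnNhd ℝ (fun z : (Fin n → ℝ) × (Fin m → ℝ) => f z.1 z.2) Set.univ)
    {r s : ℕ} {p : Jet n m} (hh : ∀ i, Good r (h i) p)
    (hx : ∀ i, Expr f h s (fun q => q.1 i) p) (hu : ∀ b, Expr f h s (fun q => q.2 0 b) p) :
    ∃ W : Set (Jet n m), IsOpen W ∧ p ∈ W ∧ IsFlatOutput f W r h := by
  have hcont := continuousAt_outJet hf hh s
  choose H hH heH using hh
  choose X hX heX using hx
  choose U hU heU using hu
  have e1 : ∀ᶠ q in 𝓝 p, ∀ i, AnalyticAt ℝ (H i) (trunc r q) := eventually_all.2 fun i =>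
    (continuous_trunc r).continuousAt.eventually (hH i).eventually_analyticAt
  have e2 : ∀ᶠ q in 𝓝 p, ∀ i, h i q = H i (trunc r q) := eventually_all.2 heH
  have e3 : ∀ᶠ q in 𝓝 p, ∀ i, AnalyticAt ℝ (X i) (outJet f h s q) := eventually_all.2 fun i =>
    hcont.eventually (hX i).eventually_analyticAt
  have e4 : ∀ᶠ q in 𝓝 p, ∀ i, q.1 i = X i (outJet f h s q) := eventually_all.2 heX
  have e5 : ∀ᶠ q in 𝓝 p, ∀ i, AnalyticAt ℝ (U i) (outJet f h s q) := eventually_all.2 fun i =>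
    hcont.eventually (hU i).eventually_analyticAt
  have e6 : ∀ᶠ q in 𝓝 p, ∀ i, q.2 0 i = U i (outJet f h s q) := eventually_all.2 heU
  obtain ⟨W, hW, hWo, hpW⟩ := eventually_nhds_iff.1
    (e1.and (e2.and (e3.and (e4.and (e5.and e6)))))
  refine ⟨W, hWo, hpW, ⟨fun i => ⟨H i, fun q hq => ?_⟩, s,
    fun v => (fun i => X i v, fun i => U i v), fun q hq => ?_⟩⟩
  · exact ⟨(hW q hq).1 i, (hW q hq).2.1 i⟩
  · obtain ⟨-, -, h3, h4, h5, h6⟩ := hW q hq
    refine ⟨(AnalyticAt.pi fun i => h3 i).prod (AnalyticAt.pi fun i => h5 i), ?_⟩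
    refine Prod.ext ?_ ?_
    · funext i; exact (h4 i).symm
    · funext i; exact (h6 i).symm

end FlatOrder
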