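import Pool.Agent.Helper62.FO.Stage

/-! Offer FO-C1 (MP_12f184_an): calculus of good functions. -/

namespace FlatOrder

open scoped Topology
open Filter

variable {n m : ℕ}

/-- Derivative of `prolong f` at `p` in the direction `v`. -/
noncomputable def dprolong (f : (Fin n → ℝ) → (Fin m → ℝ) → (Fin n → ℝ)) (p v : Jet n m) : Jet n m :=
  (fderiv ℝ (fun z : (Fin n → ℝ) × (Fin m → ℝ) => f z.1 z.2) (p.1, p.2 0) (v.1, v.2 0),
    fun j => v.2 (j + 1))

/-- evaluation of analytic families of linear maps -/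
theorem analyticAt_clm_apply {E F G : Type*} [NormedAddCommGroup E] [NormedSpace ℝ E]
    [NormedAddCommGroup F] [NormedSpace ℝ F] [NormedAddCommGroup G] [NormedSpace ℝ G]
    {A : E → F →L[ℝ] G} {B : E → F} {x : E} (hA : AnalyticAt ℝ A x) (hB : AnalyticAt ℝ B x) :
    AnalyticAt ℝ (fun y => A y (B y)) x :=
  AnalyticAt.comp₂ (h := fun q : (F →L[ℝ] G) × F => q.1 q.2)
    ((ContinuousLinearMap.id ℝ (F →L[ℝ] G)).analyticAt_bilinear (A x, B x)) hA hB

theorem tendsto_line (p v : Jet n m) : Tendsto (fun t : ℝ => p + t • v) (𝓝 0) (𝓝 p) := by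
  have h : Continuous (fun t : ℝ => p + t • v) := by fun_prop
  have := h.tendsto 0
  simpa using this

theorem lineDeriv_congr {g g' : Jet n m → ℝ} {p : Jet n m} (h : g =ᶠ[𝓝 p] g') (v : Jet n m) :
    lineDeriv ℝ g p v = lineDeriv ℝ g' p v := by
  unfold lineDeriv
  have h' : (fun t : ℝ => g (p + t • v)) =ᶠ[𝓝 0] (fun t : ℝ => g' (p + t • v)) :=
    (tendsto_line p v).eventually h
  exact h'.deriv_eq

theorem hasLineDerivAt_congr {g g' : Jet n m → ℝ} {p v : Jet n m} {a : ℝ}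
    (h : g =ᶠ[𝓝 p] g') (h' : HasLineDerivAt ℝ g' a p v) : HasLineDerivAt ℝ g a p v := by
  unfold HasLineDerivAt at *
  exact h'.congr_of_eventuallyEq ((tendsto_line p v).eventually h)

theorem hasLineDerivAt_trunc {F : Type*} [NormedAddCommGroup F] [NormedSpace ℝ F] {N : ℕ}
    {p : Jet n m} {φ : TJet n m N → F} {φ' : TJet n m N →L[ℝ] F}
    (hφ : HasFDerivAt φ φ' (trunc N p)) (v : Jet n m) :
    HasLineDerivAt ℝ (fun p' => φ (trunc N p')) (φ' (trunc N v)) p v :=
  hφ.hasLineDerivAt (trunc N v)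

theorem hasLineDerivAt_of_repr {N : ℕ} {g : Jet n m → ℝ} {p : Jet n m} {φ : TJet n m N → ℝ}
    (hφ : AnalyticAt ℝ φ (trunc N p)) (he : g =ᶠ[𝓝 p] fun p' => φ (trunc N p')) (v : Jet n m) :
    HasLineDerivAt ℝ g (fderiv ℝ φ (trunc N p) (trunc N v)) p v :=
  hasLineDerivAt_congr he (hasLineDerivAt_trunc hφ.differentiableAt.hasFDerivAt v)

theorem Good.lineDifferentiableAt {N : ℕ} {g : Jet n m → ℝ} {p : Jet n m} (hg : Good N g p)
    (v : Jet n m) : LineDifferentiableAt ℝ g p v := by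
  obtain ⟨φ, hφ, he⟩ := hg
  exact (hasLineDerivAt_of_repr hφ he v).lineDifferentiableAt

theorem totalDeriv_congr (f : (Fin n → ℝ) → (Fin m → ℝ) → (Fin n → ℝ)) {g g' : Jet n m → ℝ}
    {p : Jet n m} (h : g =ᶠ[𝓝 p] g') : totalDeriv f g =ᶠ[𝓝 p] totalDeriv f g' := by
  filter_upwards [h.eventually_nhds] with q hq
  exact lineDeriv_congr hq _

/-- the line derivatives near a point, in terms of a representing function -/
theorem lineDeriv_repr {N : ℕ} {g : Jet n m → ℝ} {p : Jet n m} {φ : TJet n m N → ℝ}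
    (hφ : AnalyticAt ℝ φ (trunc N p)) (he : g =ᶠ[𝓝 p] fun p' => φ (trunc N p')) :
    ∀ᶠ q in 𝓝 p, ∀ v, lineDeriv ℝ g q v = fderiv ℝ φ (trunc N q) (trunc N v) := by
  have h1 : ∀ᶠ p' in 𝓝 p, AnalyticAt ℝ φ (trunc N p') :=
    (continuous_trunc N).continuousAt.eventually hφ.eventually_analyticAt
  filter_upwards [h1, he.eventually_nhds] with q h2 h3 v
  exact (hasLineDerivAt_of_repr h2 h3 v).lineDeriv

theorem Good.lineDeriv_good {N : ℕ} {g : Jet n m → ℝ} {p : Jet n m} (hg : Good N g p)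
    (v : Jet n m) : Good N (fun p' => lineDeriv ℝ g p' v) p := by
  obtain ⟨φ, hφ, he⟩ := hg
  refine ⟨fun q => fderiv ℝ φ q (trunc N v), analyticAt_clm_apply hφ.fderiv analyticAt_const, ?_⟩
  filter_upwards [lineDeriv_repr hφ he] with q hq
  exact hq v

/-- `trunc` of the prolongation, as a function of a longer jet -/
def tprol (f : (Fin n → ℝ) → (Fin m → ℝ) → (Fin n → ℝ)) (N : ℕ) (q : TJet n m (N + 1)) :
    TJet n m N := (f q.1 (q.2 0), fun j => q.2 j.succ)

theorem trunc_prolong (f : (Fin n → ℝ) → (Fin m → ℝ) → (Fin n → ℝ)) (N : ℕ) (p : Jet n m) :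
    trunc N (prolong f p) = tprol f N (trunc (N + 1) p) := rfl

/-- the input part of the shift, as a continuous linear map -/
noncomputable def shiftL (n m N : ℕ) : TJet n m (N + 1) →L[ℝ] (Fin (N + 1) → Fin m → ℝ) where
  toFun q := fun j => q.2 j.succ
  map_add' _ _ := rfl
  map_smul' _ _ := rfl
  cont := by fun_prop

/-- the projection to the state and the input -/
noncomputable def zeroL (n m N : ℕ) : TJet n m (N + 1) →L[ℝ] ((Fin n → ℝ) × (Fin m → ℝ)) where
  toFun q := (q.1, q.2 0)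
  map_add' _ _ := rfl
  map_smul' _ _ := rfl
  cont := by fun_prop

theorem analyticAt_tprol {f : (Fin n → ℝ) → (Fin m → ℝ) → (Fin n → ℝ)}
    (hf : AnalyticOnNhd ℝ (fun z : (Fin n → ℝ) × (Fin m → ℝ) => f z.1 z.2) Set.univ) (N : ℕ)
    (q : TJet n m (N + 1)) : AnalyticAt ℝ (tprol f N) q := by
  have h1 : AnalyticAt ℝ (fun q : TJet n m (N + 1) => f q.1 (q.2 0)) q :=
    AnalyticAt.fun_comp (f := fun q => zeroL n m N q)
      (g := fun z : (Fin n → ℝ) × (Fin m → ℝ) => f z.1 z.2) (hf _ (Set.mem_univ _))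
      ((zeroL n m N).analyticAt q)
  exact h1.prod ((shiftL n m N).analyticAt q)

theorem hasFDerivAt_tprol {f : (Fin n → ℝ) → (Fin m → ℝ) → (Fin n → ℝ)}
    (hf : AnalyticOnNhd ℝ (fun z : (Fin n → ℝ) × (Fin m → ℝ) => f z.1 z.2) Set.univ) (N : ℕ)
    (q : TJet n m (N + 1)) : HasFDerivAt (tprol f N)
      (((fderiv ℝ (fun z : (Fin n → ℝ) × (Fin m → ℝ) => f z.1 z.2) (q.1, q.2 0)).comp
        (zeroL n m N)).prod (shiftL n m N)) q := by
  have h1 : HasFDerivAt (fun q : TJet n m (N + 1) => f q.1 (q.2 0))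
      ((fderiv ℝ (fun z : (Fin n → ℝ) × (Fin m → ℝ) => f z.1 z.2) (q.1, q.2 0)).comp
        (zeroL n m N)) q :=
    HasFDerivAt.comp (g := fun z : (Fin n → ℝ) × (Fin m → ℝ) => f z.1 z.2)
      (f := fun q => zeroL n m N q) q
      (hf (q.1, q.2 0) (Set.mem_univ _)).differentiableAt.hasFDerivAt (zeroL n m N).hasFDerivAt
  exact h1.prodMk (shiftL n m N).hasFDerivAt

/-- the total derivative near a point, in terms of a representing function -/
theorem totalDeriv_repr (f : (Fin n → ℝ) → (Fin m → ℝ) → (Fin n → ℝ)) {N : ℕ} {g : Jet n m → ℝ}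
    {p : Jet n m} {φ : TJet n m N → ℝ}
    (hφ : AnalyticAt ℝ φ (trunc N p)) (he : g =ᶠ[𝓝 p] fun p' => φ (trunc N p')) :
    totalDeriv f g =ᶠ[𝓝 p] fun q => fderiv ℝ φ (resL n m (Nat.le_succ N) (trunc (N + 1) q))
      (tprol f N (trunc (N + 1) q)) := by
  filter_upwards [lineDeriv_repr hφ he] with q hq
  exact hq _

theorem Good.totalDeriv_good {f : (Fin n → ℝ) → (Fin m → ℝ) → (Fin n → ℝ)}
    (hf : AnalyticOnNhd ℝ (fun z : (Fin n → ℝ) × (Fin m → ℝ) => f z.1 z.2) Set.univ)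
    {N : ℕ} {g : Jet n m → ℝ} {p : Jet n m} (hg : Good N g p) :
    Good (N + 1) (totalDeriv f g) p := by
  obtain ⟨φ, hφ, he⟩ := hg
  refine ⟨fun q => fderiv ℝ φ (resL n m (Nat.le_succ N) q) (tprol f N q), ?_,
    totalDeriv_repr f hφ he⟩
  refine analyticAt_clm_apply ?_ (analyticAt_tprol hf N _)
  exact AnalyticAt.fun_comp (g := fun q => fderiv ℝ φ q) (f := fun q => resL n m (Nat.le_succ N) q)
    hφ.fderiv ((resL n m (Nat.le_succ N)).analyticAt _)

theorem lineDeriv_add_good {N : ℕ} {g g' : Jet n m → ℝ} {p : Jet n m} (hg : Good N g p)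
    (hg' : Good N g' p) (v : Jet n m) :
    lineDeriv ℝ (fun q => g q + g' q) p v = lineDeriv ℝ g p v + lineDeriv ℝ g' p v := by
  have h1 := (hg.lineDifferentiableAt v).hasLineDerivAt
  have h2 := (hg'.lineDifferentiableAt v).hasLineDerivAt
  unfold HasLineDerivAt at h1 h2
  exact (HasDerivAt.add h1 h2).deriv

theorem lineDeriv_mul_good {N : ℕ} {g g' : Jet n m → ℝ} {p : Jet n m} (hg : Good N g p)
    (hg' : Good N g' p) (v : Jet n m) :
    lineDeriv ℝ (fun q => g q * g' q) p v = g p * lineDeriv ℝ g' p v + g' p * lineDeriv ℝ g p v := by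
  have h1 := (hg.lineDifferentiableAt v).hasLineDerivAt
  have h2 := (hg'.lineDifferentiableAt v).hasLineDerivAt
  unfold HasLineDerivAt at h1 h2
  have h3 := (HasDerivAt.mul h1 h2).deriv
  simp only [zero_smul, add_zero] at h3
  unfold lineDeriv at *
  rw [show (fun t : ℝ => g (p + t • v) * g' (p + t • v)) =
    (fun t : ℝ => g (p + t • v)) * (fun t : ℝ => g' (p + t • v)) from rfl, h3]
  ring

/-- Chain rule. -/
theorem lineDeriv_comp_good {ι : Type*} [Fintype ι] {N : ℕ} {g : ι → Jet n m → ℝ} {p : Jet n m}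
    (hg : ∀ i, Good N (g i) p) {Φ : (ι → ℝ) → ℝ} (hΦ : AnalyticAt ℝ Φ (fun i => g i p))
    (v : Jet n m) :
    lineDeriv ℝ (fun q => Φ (fun i => g i q)) p v =
      fderiv ℝ Φ (fun i => g i p) (fun i => lineDeriv ℝ (g i) p v) := by
  have h1 : HasDerivAt (fun t : ℝ => fun i => g i (p + t • v)) (fun i => lineDeriv ℝ (g i) p v) 0 :=
    hasDerivAt_pi.2 fun i => ((hg i).lineDifferentiableAt v).hasLineDerivAt
  have h2 : HasFDerivAt Φ (fderiv ℝ Φ (fun i => g i p)) (fun i => g i (p + (0 : ℝ) • v)) := by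
    simp only [zero_smul, add_zero]
    exact hΦ.differentiableAt.hasFDerivAt
  exact (h2.comp_hasDerivAt (0 : ℝ) h1).deriv

theorem lineDeriv_state (i : Fin n) (p v : Jet n m) :
    lineDeriv ℝ (fun q : Jet n m => q.1 i) p v = v.1 i := by
  unfold lineDeriv
  have h : HasDerivAt (fun t : ℝ => p.1 i + t * v.1 i) (v.1 i) 0 := by
    simpa using ((hasDerivAt_id (0 : ℝ)).mul_const (v.1 i)).const_add (p.1 i)
  exact h.deriv

theorem lineDeriv_input (j : ℕ) (b : Fin m) (p v : Jet n m) :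
    lineDeriv ℝ (fun q : Jet n m => q.2 j b) p v = v.2 j b := by
  unfold lineDeriv
  have h : HasDerivAt (fun t : ℝ => p.2 j b + t * v.2 j b) (v.2 j b) 0 := by
    simpa using ((hasDerivAt_id (0 : ℝ)).mul_const (v.2 j b)).const_add (p.2 j b)
  exact h.deriv

/-- derivative of a derivative, in terms of a representing function -/
theorem hasLineDerivAt_lineDeriv {N : ℕ} {g : Jet n m → ℝ} {p : Jet n m} {φ : TJet n m N → ℝ}
    (hφ : AnalyticAt ℝ φ (trunc N p)) (he : g =ᶠ[𝓝 p] fun p' => φ (trunc N p')) (v w : Jet n m) :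
    HasLineDerivAt ℝ (fun q => lineDeriv ℝ g q w)
      (fderiv ℝ (fderiv ℝ φ) (trunc N p) (trunc N v) (trunc N w)) p v := by
  have h1 : (fun q => lineDeriv ℝ g q w) =ᶠ[𝓝 p] fun q => fderiv ℝ φ (trunc N q) (trunc N w) := by
    filter_upwards [lineDeriv_repr hφ he] with q hq
    exact hq w
  refine hasLineDerivAt_congr h1 ?_
  have h2 : HasFDerivAt (fderiv ℝ φ) (fderiv ℝ (fderiv ℝ φ) (trunc N p)) (trunc N p) :=
    hφ.fderiv.differentiableAt.hasFDerivAt
  have h3 : HasFDerivAt (fun q => fderiv ℝ φ q (trunc N w))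
      ((ContinuousLinearMap.apply ℝ ℝ (trunc N w)).comp (fderiv ℝ (fderiv ℝ φ) (trunc N p)))
      (trunc N p) :=
    (ContinuousLinearMap.apply ℝ ℝ (trunc N w)).hasFDerivAt.comp (trunc N p) h2
  exact hasLineDerivAt_trunc h3 v

theorem snd_symm {N : ℕ} {φ : TJet n m N → ℝ} {x : TJet n m N} (hφ : AnalyticAt ℝ φ x)
    (v w : TJet n m N) : fderiv ℝ (fderiv ℝ φ) x v w = fderiv ℝ (fderiv ℝ φ) x w v :=
  ContDiffAt.isSymmSndFDerivAt_of_omega hφ.contDiffAt v w

/-- Symmetry of second derivatives. -/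
theorem lineDeriv_comm_good {N : ℕ} {g : Jet n m → ℝ} {p : Jet n m} (hg : Good N g p)
    (v w : Jet n m) :
    lineDeriv ℝ (fun q => lineDeriv ℝ g q w) p v = lineDeriv ℝ (fun q => lineDeriv ℝ g q v) p w := by
  obtain ⟨φ, hφ, he⟩ := hg
  rw [(hasLineDerivAt_lineDeriv hφ he v w).lineDeriv, (hasLineDerivAt_lineDeriv hφ he w v).lineDeriv,
    snd_symm hφ]

/-- Commutator of a constant direction and the total derivative. -/
theorem lineDeriv_totalDeriv {f : (Fin n → ℝ) → (Fin m → ℝ) → (Fin n → ℝ)}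
    (hf : AnalyticOnNhd ℝ (fun z : (Fin n → ℝ) × (Fin m → ℝ) => f z.1 z.2) Set.univ)
    {N : ℕ} {g : Jet n m → ℝ} {p : Jet n m} (hg : Good N g p) (v : Jet n m) :
    lineDeriv ℝ (totalDeriv f g) p v =
      totalDeriv f (fun q => lineDeriv ℝ g q v) p + lineDeriv ℝ g p (dprolong f p v) := by
  obtain ⟨φ, hφ, he⟩ := hg
  have h1 : totalDeriv f (fun q => lineDeriv ℝ g q v) p =
      fderiv ℝ (fderiv ℝ φ) (trunc N p) (trunc N (prolong f p)) (trunc N v) :=
    (hasLineDerivAt_lineDeriv hφ he (prolong f p) v).lineDeriv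
  have h2 : lineDeriv ℝ g p (dprolong f p v) =
      fderiv ℝ φ (trunc N p) (trunc N (dprolong f p v)) :=
    (hasLineDerivAt_of_repr hφ he _).lineDeriv
  rw [h1, h2]
  have h3 : HasFDerivAt (fun q => fderiv ℝ φ (resL n m (Nat.le_succ N) q))
      ((fderiv ℝ (fderiv ℝ φ) (trunc N p)).comp (resL n m (Nat.le_succ N))) (trunc (N + 1) p) :=
    HasFDerivAt.comp (g := fderiv ℝ φ) (f := fun q => resL n m (Nat.le_succ N) q)
      (trunc (N + 1) p) hφ.fderiv.differentiableAt.hasFDerivAt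
      (resL n m (Nat.le_succ N)).hasFDerivAt
  have h4 := h3.clm_apply (hasFDerivAt_tprol hf N (trunc (N + 1) p))
  have h5 := hasLineDerivAt_congr (totalDeriv_repr f hφ he) (hasLineDerivAt_trunc h4 v)
  rw [h5.lineDeriv]
  have e1 : resL n m (Nat.le_succ N) (trunc (N + 1) v) = trunc N v := rfl
  have e2 : resL n m (Nat.le_succ N) (trunc (N + 1) p) = trunc N p := rfl
  have e3 : tprol f N (trunc (N + 1) p) = trunc N (prolong f p) := rfl
  have e4 : (((fderiv ℝ (fun z : (Fin n → ℝ) × (Fin m → ℝ) => f z.1 z.2)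
      ((trunc (N + 1) p).1, (trunc (N + 1) p).2 0)).comp (zeroL n m N)).prod (shiftL n m N))
      (trunc (N + 1) v) = trunc N (dprolong f p v) := rfl
  simp only [add_apply, ContinuousLinearMap.comp_apply,
    ContinuousLinearMap.flip_apply]
  rw [e1, e2, e3, snd_symm hφ (trunc N v) (trunc N (prolong f p)), add_comm]
  congr 1

theorem lineDeriv_add_dir {N : ℕ} {g : Jet n m → ℝ} {p : Jet n m} (hg : Good N g p)
    (v w : Jet n m) : lineDeriv ℝ g p (v + w) = lineDeriv ℝ g p v + lineDeriv ℝ g p w := by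
  obtain ⟨φ, hφ, he⟩ := hg
  rw [(hasLineDerivAt_of_repr hφ he _).lineDeriv, (hasLineDerivAt_of_repr hφ he v).lineDeriv,
    (hasLineDerivAt_of_repr hφ he w).lineDeriv, ← map_add]
  rfl

theorem lineDeriv_smul_dir {N : ℕ} {g : Jet n m → ℝ} {p : Jet n m} (hg : Good N g p)
    (a : ℝ) (v : Jet n m) : lineDeriv ℝ g p (a • v) = a * lineDeriv ℝ g p v := by
  obtain ⟨φ, hφ, he⟩ := hg
  rw [(hasLineDerivAt_of_repr hφ he _).lineDeriv, (hasLineDerivAt_of_repr hφ he v).lineDeriv,
    ← smul_eq_mul, ← map_smul]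
  rfl

theorem lineDeriv_eq_zero_of_trunc {N : ℕ} {g : Jet n m → ℝ} {p : Jet n m} (hg : Good N g p)
    {v : Jet n m} (hv : trunc N v = 0) : lineDeriv ℝ g p v = 0 := by
  obtain ⟨φ, hφ, he⟩ := hg
  rw [(hasLineDerivAt_of_repr hφ he _).lineDeriv, hv, map_zero]

/-- Expansion of the line derivative in coordinates. -/
theorem lineDeriv_eq_sum {N : ℕ} {g : Jet n m → ℝ} {p : Jet n m} (hg : Good N g p)
    (v : Jet n m) : lineDeriv ℝ g p v = ∑ i, v.1 i * lineDeriv ℝ g p (es i) +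
      ∑ j ∈ Finset.range (N + 1), ∑ b, v.2 j b * lineDeriv ℝ g p (eu j b) := by
  obtain ⟨φ, hφ, he⟩ := hg
  have h : ∀ w, lineDeriv ℝ g p w = fderiv ℝ φ (trunc N p) (trunc N w) := fun w =>
    (hasLineDerivAt_of_repr hφ he w).lineDeriv
  have hv : trunc N v = ∑ i, v.1 i • trunc N (es (m := m) i) +
      ∑ j ∈ Finset.range (N + 1), ∑ b, v.2 j b • trunc N (eu (n := n) j b) := by
    refine Prod.ext ?_ ?_
    · simp only [Prod.fst_add, Prod.fst_sum, Prod.smul_fst]
      have e1 : ∀ (j : ℕ) (b : Fin m), (trunc N (eu (n := n) j b)).1 = 0 := fun _ _ => rfl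
      have e2 : ∀ i : Fin n, (trunc N (es (m := m) i)).1 = Pi.single i 1 := fun _ => rfl
      simp only [e1, e2, smul_zero, Finset.sum_const_zero, add_zero]
      funext k
      simp [trunc, Finset.sum_apply, Pi.single_apply]
    · simp only [Prod.snd_add, Prod.snd_sum, Prod.smul_snd]
      have e1 : ∀ i : Fin n, (trunc N (es (m := m) i)).2 = 0 := fun _ => rfl
      simp only [e1, smul_zero, Finset.sum_const_zero, zero_add]
      funext k b
      simp only [Finset.sum_apply, Pi.smul_apply, smul_eq_mul]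
      have e2 : ∀ (j : ℕ) (b' : Fin m), (trunc N (eu (n := n) j b')).2 k b =
          if j = (k : ℕ) then (if b' = b then 1 else 0) else 0 := by
        intro j b'
        simp only [trunc, eu, Pi.single_apply]
        by_cases hj : j = (k : ℕ)
        · rw [if_pos hj.symm, if_pos hj, Pi.single_apply]
          by_cases hb : b' = b
          · rw [if_pos hb.symm, if_pos hb]
          · rw [if_neg (fun h => hb h.symm), if_neg hb]
        · rw [if_neg (fun h => hj h.symm), if_neg hj]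
          rfl
      simp only [e2]
      rw [Finset.sum_eq_single (k : ℕ)]
      · simp [trunc]
      · intro j _ hj
        simp [hj]
      · intro hk
        exact absurd (Finset.mem_range.2 k.2) hk
  rw [h v, hv, map_add, map_sum, map_sum]
  congr 1
  · refine Finset.sum_congr rfl fun i _ => ?_
    rw [map_smul, smul_eq_mul, h]
  · refine Finset.sum_congr rfl fun j _ => ?_
    rw [map_sum]
    refine Finset.sum_congr rfl fun b _ => ?_
    rw [map_smul, smul_eq_mul, h]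

end FlatOrder
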