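import Pool.Agent.Helper62.FO.JetFun

/-! Offer FO-B1 (MP_12f184_an): the differentials of the derivatives of a flat output form a basis. -/

namespace FlatOrder

namespace YB

open Finset Submodule

variable {K : Type*} [Field K] (J : JetFun K 4 2)

/-- the semilinear operator with `L (d a) = d (D a)` -/
noncomputable def L (w : Coord 4 2 →₀ K) : Coord 4 2 →₀ K :=
  w.sum fun α x => x • J.d (J.D (J.X α)) + Finsupp.single α (J.D x)

theorem L_zero : L J 0 = 0 := by
  unfold L
  exact Finsupp.sum_zero_index

theorem L_add (w w' : Coord 4 2 →₀ K) : L J (w + w') = L J w + L J w' := by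
  unfold L
  classical
  refine Finsupp.sum_add_index' ?_ ?_
  · intro α
    simp
  · intro α x x'
    rw [add_smul, map_add, Finsupp.single_add]
    abel

theorem L_single (α : Coord 4 2) (x : K) :
    L J (Finsupp.single α x) = x • J.d (J.D (J.X α)) + Finsupp.single α (J.D x) := by
  unfold L
  rw [Finsupp.sum_single_index]
  simp

theorem L_smul (a : K) (w : Coord 4 2 →₀ K) : L J (a • w) = J.D a • w + a • L J w := by
  induction w using Finsupp.induction_linear with
  | zero => rw [smul_zero, smul_zero, L_zero, smul_zero, add_zero]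
  | add w w' h h' =>
    rw [smul_add, L_add, h, h', L_add, smul_add, smul_add]
    abel
  | single α x =>
    rw [Finsupp.smul_single, L_single, L_single, smul_add, smul_smul, smul_eq_mul,
      Finsupp.smul_single, Finsupp.smul_single, Derivation.leibniz, Finsupp.single_add]
    simp only [smul_eq_mul]
    rw [mul_comm x (J.D a)]
    abel

theorem L_d (a : K) : L J (J.d a) = J.d (J.D a) := (J.d_D a).symm

/-- the differentials of the derivatives of `y` -/
noncomputable def w (y : Fin 2 → K) (i : Fin 2) (t : ℕ) : Coord 4 2 →₀ K := J.d (J.D^[t] (y i))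

theorem w_succ (y : Fin 2 → K) (i : Fin 2) (t : ℕ) : w J y i (t + 1) = L J (w J y i t) := by
  unfold w
  rw [L_d, Function.iterate_succ_apply']

/-- `L` maps a span into a span -/
theorem L_mem {S : Set (Coord 4 2 →₀ K)} {W : Submodule K (Coord 4 2 →₀ K)}
    (hS : span K S ≤ W) (hL : ∀ v ∈ S, L J v ∈ W) {v : Coord 4 2 →₀ K} (hv : v ∈ span K S) :
    L J v ∈ W := by
  induction hv using Submodule.span_induction with
  | mem x hx => exact hL x hx
  | zero => rw [L_zero]; exact W.zero_mem
  | add x y _ _ hx hy => rw [L_add]; exact W.add_mem hx hy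
  | smul a x hx hx' =>
    rw [L_smul]
    exact W.add_mem (W.smul_mem _ (hS hx)) (W.smul_mem _ hx')

/-- the span of the first derivatives -/
noncomputable def Y (y : Fin 2 → K) (M : ℕ) : Submodule K (Coord 4 2 →₀ K) :=
  span K {ω | ∃ (i : Fin 2) (t : ℕ), t ≤ M ∧ ω = J.d (J.D^[t] (y i))}

theorem w_mem_Y (y : Fin 2 → K) (i : Fin 2) {t M : ℕ} (h : t ≤ M) : w J y i t ∈ Y J y M :=
  subset_span ⟨i, t, h, rfl⟩

theorem Y_mono (y : Fin 2 → K) {M M' : ℕ} (h : M ≤ M') : Y J y M ≤ Y J y M' := by
  refine span_mono ?_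
  rintro ω ⟨i, t, ht, rfl⟩
  exact ⟨i, t, ht.trans h, rfl⟩

theorem L_Y (y : Fin 2 → K) (M : ℕ) {v : Coord 4 2 →₀ K} (hv : v ∈ Y J y M) :
    L J v ∈ Y J y (M + 1) := by
  refine L_mem J (Y_mono J y (Nat.le_succ M)) ?_ hv
  rintro v ⟨i, t, ht, rfl⟩
  have := w_succ J y i t
  unfold w at this
  rw [← this]
  exact w_mem_Y J y i (by omega)

/-- coordinates of order at most `j` -/
theorem single_mem (y : Fin 2 → K) {s : ℕ}
    (hs : ∀ α : Coord 4 2, (∀ j b, α = Sum.inr (j, b) → j = 0) → J.d (J.X α) ∈ Y J y s) :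
    (∀ i : Fin 4, Finsupp.single (Sum.inl i : Coord 4 2) (1 : K) ∈ Y J y s) ∧
    ∀ (j : ℕ) (b : Fin 2), Finsupp.single (Sum.inr (j, b) : Coord 4 2) (1 : K) ∈ Y J y (s + j) := by
  refine ⟨fun i => ?_, fun j => ?_⟩
  · rw [← J.d_X]
    exact hs _ (fun j b h => by simp at h)
  · induction j with
    | zero =>
      intro b
      rw [← J.d_X]
      refine hs _ (fun j b' h => ?_)
      have := Sum.inr.inj h
      exact (Prod.mk.inj this).1.symm
    | succ j ih =>
      intro b
      rw [← J.d_X, ← J.D_X, ← L_d, J.d_X]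
      exact L_Y J y _ (ih b)

/-- the embedding of the coordinates of order at most `j` -/
def emb (j : ℕ) (β : Fin 4 ⊕ (Fin (j + 1) × Fin 2)) : Coord 4 2 :=
  Sum.map id (Prod.map Fin.val id) β

theorem emb_inj (j : ℕ) : Function.Injective (emb j) := by
  unfold emb
  exact Sum.map_injective.2 ⟨Function.injective_id,
    Prod.map_injective.2 ⟨Fin.val_injective, Function.injective_id⟩⟩

theorem card_le (y : Fin 2 → K) {s : ℕ}
    (hs : ∀ α : Coord 4 2, (∀ j b, α = Sum.inr (j, b) → j = 0) → J.d (J.X α) ∈ Y J y s)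
    (j : ℕ) (F : Finset (Coord 4 2 →₀ K)) (hF : Y J y (s + j) ≤ span K (F : Set (Coord 4 2 →₀ K))) :
    2 * j + 6 ≤ #F := by
  have hli : LinearIndependent K (fun β : Fin 4 ⊕ (Fin (j + 1) × Fin 2) =>
      Finsupp.single (emb j β) (1 : K)) :=
    (Finsupp.linearIndependent_single_one K (Coord 4 2)).comp _ (emb_inj j)
  obtain ⟨h1, h2⟩ := single_mem J y hs
  have h3 : Set.range (fun β : Fin 4 ⊕ (Fin (j + 1) × Fin 2) =>
      Finsupp.single (emb j β) (1 : K)) ≤ span K (F : Set (Coord 4 2 →₀ K)) := by
    rintro _ ⟨β, rfl⟩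
    apply hF
    rcases β with i | ⟨k, b⟩
    · exact Y_mono J y (Nat.le_add_right _ _) (h1 i)
    · exact Y_mono J y (by have := k.2; omega) (h2 k.val b)
  have h4 := linearIndependent_le_span' _ hli (F : Set (Coord 4 2 →₀ K)) h3
  simp only [Cardinal.mk_fintype, Fintype.card_sum, Fintype.card_fin, Fintype.card_prod] at h4
  have h5 : 4 + (j + 1) * 2 ≤ Fintype.card (F : Set (Coord 4 2 →₀ K)) := by exact_mod_cast h4
  have h6 : Fintype.card (F : Set (Coord 4 2 →₀ K)) = #F := by simp
  omega

end YB

open YB Finset Submodule in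
theorem y_basis {K : Type*} [Field K] [CharZero K] (J : JetFun K 4 2) (y : Fin 2 → K)
    (hspan : ∃ s : ℕ, ∀ α : Coord 4 2, (∀ j b, α = Sum.inr (j, b) → j = 0) →
      J.d (J.X α) ∈ Submodule.span K {ω | ∃ (i : Fin 2) (t : ℕ), t ≤ s ∧ ω = J.d (J.D^[t] (y i))}) :
    LinearIndependent K (fun q : Fin 2 × ℕ => J.d (J.D^[q.2] (y q.1))) ∧
      (⊤ : Submodule K (Coord 4 2 →₀ K)) ≤
        Submodule.span K (Set.range fun q : Fin 2 × ℕ => J.d (J.D^[q.2] (y q.1))) := by
  classical
  obtain ⟨s, hs⟩ := hspan
  refine ⟨?_, ?_⟩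
  · by_contra hli
    rw [linearIndependent_iff'] at hli
    push Not at hli
    obtain ⟨s', g, hsum, q0, hq0, hg0⟩ := hli
    obtain ⟨T, hT⟩ : ∃ T, T = s'.filter (fun q => g q ≠ 0) := ⟨_, rfl⟩
    have hT0 : T.Nonempty := ⟨q0, by rw [hT, mem_filter]; exact ⟨hq0, hg0⟩⟩
    obtain ⟨⟨i, N⟩, hq, hmax⟩ := exists_max_image T (fun q => q.2) hT0
    -- the set
    obtain ⟨F, hF⟩ : ∃ F : ℕ → Finset (Coord 4 2 →₀ K), F = fun M =>
      (range (M + 1)).image (fun t => w J y (i + 1) t) ∪ (range N).image (fun t => w J y i t) :=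
      ⟨_, rfl⟩
    have hFmono : ∀ M, span K (F M : Set (Coord 4 2 →₀ K)) ≤ span K (F (M + 1) : Set (Coord 4 2 →₀ K)) := by
      intro M
      refine span_mono ?_
      rw [hF]
      intro v hv
      simp only [coe_union, coe_image, Set.mem_union, Set.mem_image, coe_range, Set.mem_Iio] at hv ⊢
      rcases hv with ⟨t, ht, rfl⟩ | h
      · exact Or.inl ⟨t, by omega, rfl⟩
      · exact Or.inr h
    have hother : ∀ (M t : ℕ), t ≤ M → w J y (i + 1) t ∈ span K (F M : Set (Coord 4 2 →₀ K)) := by
      intro M t ht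
      refine subset_span ?_
      rw [hF]
      simp only [coe_union, coe_image, Set.mem_union, Set.mem_image, coe_range, Set.mem_Iio]
      exact Or.inl ⟨t, by omega, rfl⟩
    have hlow : ∀ (M t : ℕ), t < N → w J y i t ∈ span K (F M : Set (Coord 4 2 →₀ K)) := by
      intro M t ht
      refine subset_span ?_
      rw [hF]
      simp only [coe_union, coe_image, Set.mem_union, Set.mem_image, coe_range, Set.mem_Iio]
      exact Or.inr ⟨t, ht, rfl⟩
    have hfin2 : ∀ k : Fin 2, k = i ∨ k = i + 1 := by
      intro k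
      omega
    -- the relation
    have hN : w J y i N ∈ span K (F N : Set (Coord 4 2 →₀ K)) := by
      have hgq : g (i, N) ≠ 0 := by
        rw [hT, mem_filter] at hq
        exact hq.2
      have hqs : (i, N) ∈ s' := by
        rw [hT, mem_filter] at hq
        exact hq.1
      rw [← add_sum_erase s' _ hqs] at hsum
      have h1 : g (i, N) • w J y i N ∈ span K (F N : Set (Coord 4 2 →₀ K)) := by
        have h2 : g (i, N) • w J y i N =
            - ∑ q ∈ s'.erase (i, N), g q • J.d (J.D^[q.2] (y q.1)) := eq_neg_of_add_eq_zero_left hsum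
        rw [h2]
        refine neg_mem (sum_mem fun q hq' => ?_)
        rw [mem_erase] at hq'
        by_cases hgq' : g q = 0
        · rw [hgq', zero_smul]
          exact zero_mem _
        · refine smul_mem _ _ ?_
          have hqT : q ∈ T := by
            rw [hT, mem_filter]
            exact ⟨hq'.2, hgq'⟩
          have h3 : q.2 ≤ N := hmax q hqT
          obtain ⟨k, t⟩ := q
          rcases hfin2 k with rfl | rfl
          · refine hlow N t ?_
            refine lt_of_le_of_ne h3 ?_
            intro h4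
            apply hq'.1
            change t = N at h4
            rw [h4]
          · exact hother N t h3
      have h2 := smul_mem (span K (F N : Set (Coord 4 2 →₀ K))) (g (i, N))⁻¹ h1
      rwa [smul_smul, inv_mul_cancel₀ hgq, one_smul] at h2
    have hmono : ∀ {M M' : ℕ}, M ≤ M' →
        span K (F M : Set (Coord 4 2 →₀ K)) ≤ span K (F M' : Set (Coord 4 2 →₀ K)) := by
      intro M M' h
      exact monotone_nat_of_le_succ (f := fun M => span K (F M : Set (Coord 4 2 →₀ K))) hFmono h
    have hLZ : ∀ M, N ≤ M → ∀ v ∈ span K (F M : Set (Coord 4 2 →₀ K)),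
        L J v ∈ span K (F (M + 1) : Set (Coord 4 2 →₀ K)) := by
      intro M hM v hv
      refine L_mem J (hFmono M) ?_ hv
      intro v hv
      rw [hF] at hv
      simp only [coe_union, coe_image, Set.mem_union, Set.mem_image, coe_range, Set.mem_Iio] at hv
      rcases hv with ⟨t, ht, rfl⟩ | ⟨t, ht, rfl⟩
      · rw [← w_succ]
        exact hother _ _ (by omega)
      · rw [← w_succ]
        rcases Nat.lt_or_ge (t + 1) N with h | h
        · exact hlow _ _ h
        · have : t + 1 = N := by omega
          rw [this]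
          exact hmono (by omega) hN
    have hall : ∀ M, N ≤ M → w J y i M ∈ span K (F M : Set (Coord 4 2 →₀ K)) := by
      intro M hM
      induction M, hM using Nat.le_induction with
      | base => exact hN
      | succ M hM ih =>
        rw [w_succ]
        exact hLZ M hM _ ih
    have hY : ∀ M, N ≤ M → Y J y M ≤ span K (F M : Set (Coord 4 2 →₀ K)) := by
      intro M hM
      unfold Y
      rw [span_le]
      rintro _ ⟨k, t, ht, rfl⟩
      rcases hfin2 k with rfl | rfl
      · rcases Nat.lt_or_ge t N with h | h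
        · exact hlow M t h
        · exact hmono ht (hall t h)
      · exact hother M t ht
    have hcard := card_le J y hs (s + N) (F (s + (s + N))) (hY _ (by omega))
    have hcard2 : #(F (s + (s + N))) ≤ (s + (s + N) + 1) + N := by
      rw [hF]
      refine (card_union_le _ _).trans ?_
      refine add_le_add (card_image_le.trans ?_) (card_image_le.trans ?_)
      · rw [card_range]
      · rw [card_range]
    omega
  · have hYle : ∀ M, Y J y M ≤ span K (Set.range fun q : Fin 2 × ℕ => J.d (J.D^[q.2] (y q.1))) := by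
      intro M
      refine span_mono ?_
      rintro _ ⟨i, t, _, rfl⟩
      exact ⟨(i, t), rfl⟩
    obtain ⟨h1, h2⟩ := single_mem J y hs
    intro v _
    induction v using Finsupp.induction_linear with
    | zero => exact zero_mem _
    | add v v' h h' => exact add_mem (h trivial) (h' trivial)
    | single α x =>
      have h3 : Finsupp.single α (1 : K) ∈
          span K (Set.range fun q : Fin 2 × ℕ => J.d (J.D^[q.2] (y q.1))) := by
        rcases α with i | ⟨j, b⟩
        · exact hYle _ (h1 i)
        · exact hYle _ (h2 j b)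
      have h4 := smul_mem _ x h3
      rwa [Finsupp.smul_single, smul_eq_mul, mul_one] at h4

end FlatOrder
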